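import Pool.Agent.Lib.MP_2c27be_co.PS.Up

/-!
The embedding with a free block length, and the choice of the block length.
-/

namespace Pool.Agent.Lib.MP_2c27be_co

open Finset

lemma ratio_le2 {D k L W J m : ℝ} (hD : 1 ≤ D) (hk : 0 < k) (hL : 0 ≤ L) (hW : 1 ≤ W)
    (hJ : J = 2 * W + 9) (hm : m = 384 * (W + 1) ^ 2) :
    8 * (40000 * (1024 * D * k)) ^ 2 *
      (2 * (2 * (8 * D) ^ 2 * ((L + 2) + m ^ 2 * (W + J) * D ^ 2)) +
        147456 * W * (8 * D * (1 + m * D)) ^ 2 +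
        W ^ 2 * (384 * (2 * (8 * D) ^ 2 * ((L + 2) + m ^ 2 * (W + J) * D ^ 2)) / m)) ≤
    W / (16 * (2 * k) ^ 2) * (10 ^ 32 * D ^ 6 * k ^ 4 * ((L + 2) / W + W ^ 4)) := by
  set Q := 2 * (8 * D) ^ 2 * ((L + 2) + m ^ 2 * (W + J) * D ^ 2) with hQ
  have hD0 : 0 < D := by linarith
  have hW0 : 0 < W := by linarith
  have m1 : 384 * W ^ 2 ≤ m := by rw [hm]; nlinarith
  have m2 : m ≤ 1536 * W ^ 2 := by rw [hm]; nlinarith
  have m0 : 1 ≤ m := by nlinarith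
  have hQ0 : 0 ≤ Q := by rw [hQ, hJ]; positivity
  have q1 : W ^ 2 * (384 * Q / m) ≤ Q := by
    rw [← mul_div_assoc, div_le_iff₀ (by linarith)]
    nlinarith
  have m3 : m ^ 2 ≤ 2359296 * W ^ 4 := by nlinarith
  have q2 : Q ≤ D ^ 4 * (128 * (L + 2) + 4 * 10 ^ 9 * W ^ 5) := by
    have a1 : m ^ 2 * (W + J) ≤ 2359296 * W ^ 4 * (12 * W) :=
      mul_le_mul m3 (by rw [hJ]; linarith) (by rw [hJ]; linarith) (by positivity)
    have a2 : D ^ 2 ≤ D ^ 4 := pow_le_pow_right₀ hD (by norm_num)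
    have a3 := mul_le_mul_of_nonneg_right a2 (show 0 ≤ L + 2 by linarith)
    have a4 := mul_le_mul_of_nonneg_right a1 (show 0 ≤ D ^ 4 by positivity)
    have a5 : 0 ≤ D ^ 4 * W ^ 5 := by positivity
    rw [hQ]
    nlinarith
  have q3 : (8 * D * (1 + m * D)) ^ 2 ≤ 256 * (2359296 * W ^ 4) * D ^ 4 := by
    have a1 : 1 + m * D ≤ 2 * (m * D) := by nlinarith
    have a2 : 8 * D * (1 + m * D) ≤ 8 * D * (2 * (m * D)) :=
      mul_le_mul_of_nonneg_left a1 (by positivity)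
    have a3 := pow_le_pow_left₀ (by positivity) a2 2
    have a4 := mul_le_mul_of_nonneg_right m3 (show 0 ≤ D ^ 4 by positivity)
    nlinarith
  have q4 := mul_le_mul_of_nonneg_left q3 (show 0 ≤ 147456 * W by positivity)
  have q5 : 2 * Q + 147456 * W * (8 * D * (1 + m * D)) ^ 2 + W ^ 2 * (384 * Q / m) ≤
      10 ^ 14 * (D ^ 4 * (L + 2 + W ^ 5)) := by
    have a5 : 0 ≤ D ^ 4 * W ^ 5 := by positivity
    have a6 : 0 ≤ D ^ 4 * (L + 2) := by positivity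
    nlinarith
  refine (mul_le_mul_of_nonneg_left q5 (by positivity)).trans ?_
  have e : W / (16 * (2 * k) ^ 2) * (10 ^ 32 * D ^ 6 * k ^ 4 * ((L + 2) / W + W ^ 4)) =
      10 ^ 32 / 64 * (D ^ 6 * k ^ 2 * (L + 2 + W ^ 5)) := by
    field_simp
    ring
  rw [e]
  have a7 : 0 ≤ D ^ 6 * k ^ 2 * (L + 2 + W ^ 5) := by positivity
  nlinarith

theorem embed_bound2 {X ι : Type} [MetricSpace X] [Fintype X] [Fintype ι] {D : ℝ} (hD : 1 ≤ D)
    (p : ι → ℝ) (t : ι → X → X → ℝ) (hp : ∀ i, 0 ≤ p i) (hp1 : ∑ i, p i = 1)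
    (ht : ∀ i, IsTree (t i)) (hdom : ∀ i x y, dist x y ≤ t i x y)
    (hexp : ∀ x y, ∑ i, p i * t i x y ≤ D * dist x y) (Λ L W g : ℕ) (hpos : 0 < Fintype.card X)
    (hΛ : Fintype.card X < 2 ^ 2 ^ Λ) (hL : Fintype.card X ≤ 2 ^ L) (hW1 : 1 ≤ W)
    (hWg : 2 * g ≤ W) (hg : 196608 * D * (Λ + 2) ^ 2 ≤ 2 ^ g) :
    ∃ (f : X → EuclideanSpace ℝ (Fin (Fintype.card X))) (c : ℝ), 0 < c ∧ ∀ x y,
      c * dist x y ^ 2 ≤ dist (f x) (f y) ^ 2 ∧ dist (f x) (f y) ^ 2 ≤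
        c * (10 ^ 32 * D ^ 6 * (Λ + 2) ^ 4 * ((L + 2) / W + W ^ 4)) * dist x y ^ 2 := by
  classical
  have : Nonempty X := Fintype.card_pos_iff.1 hpos
  choose u hu0 hu using fun i => exists_paths (ht i)
  choose i0 hi1 hi2 hi3 using hu
  choose f hf1 hf2 using fun i => exists_tree_embed (ht i) Λ hΛ
  let m : ℕ := 384 * (W + 1) ^ 2
  obtain ⟨c0, hc0⟩ := Finite.exists_min (fun c : X × X => if c.1 = c.2 then 1 else dist c.1 c.2)
  obtain ⟨c1, hc1⟩ := Finite.exists_max (fun c : X × X => dist c.1 c.2)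
  set η := if c0.1 = c0.2 then 1 else dist c0.1 c0.2 with hη
  have hη0 : 0 < η := by
    rw [hη]
    split_ifs with h
    · exact one_pos
    · exact dist_pos.2 h
  have hδ : 0 < η / 2 ^ W := by positivity
  obtain ⟨M, hM⟩ := pow_unbounded_of_one_lt (dist c1.1 c1.2 / (η / 2 ^ W)) (one_lt_two (α := ℝ))
  have hanc : ∀ (b : ℕ) (ω : ι), 0 < 16 * (8 * (1024 * D) * (η / 2 ^ W * 2 ^ b)) := by
    intro b ω; positivity
  choose π hπ1 hπ2 using fun (b : ℕ) (ω : ι) => exists_anchor (ht ω) _ (hanc b ω)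
  have hk1 : (1 : ℝ) ≤ Λ + 2 := by
    have : (0 : ℝ) ≤ Λ := Nat.cast_nonneg _
    linarith
  have hmJ : m ≤ 2 ^ (2 * W + 9) := by
    have h1 : (W + 1) ^ 2 ≤ (2 ^ W) ^ 2 := Nat.pow_le_pow_left Nat.lt_two_pow_self 2
    rw [pow_add, mul_comm 2 W, pow_mul]
    simp only [m]
    omega
  let S : Setup2 X ι (EuclideanSpace ℝ (Fin (Λ + 1) × Fin (2 ^ Λ) × Finset X)) :=
    { d := dist, p := p, t := t, u := u, i0 := i0, D := D, δ := η / 2 ^ W, κ := 1024 * D,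
      m := m, n := Fintype.card X, W := W, J := 2 * W + 9, L := L
      d_nonneg := fun _ _ => dist_nonneg
      p_nonneg := hp
      p_sum := hp1
      tree := ht
      dom := hdom
      exp := hexp
      D_ge := hD
      δ_pos := hδ
      κ_ge := by linarith
      m_pos := by simp only [m]; positivity
      n_pos := hpos
      J_ge := by omega
      m_le := by exact_mod_cast hmJ
      n_le := by exact_mod_cast hL
      u_zero := hu0
      i0_le := hi1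
      merge := hi2
      len := hi3
      f := f, K := Λ + 2, Kl := 2 * (Λ + 2), π := π
      K_pos := by linarith
      Kl_pos := by linarith
      f_up := hf1
      f_low := hf2
      π_near := fun b ω s z => (hπ1 b ω s z).trans (le_of_eq (by ring))
      π_loc := fun b ω x => by
        obtain ⟨s, hs⟩ := hπ2 b ω x
        exact ⟨s, fun z hz => hs z (hz.trans (le_of_eq (by ring)))⟩ }
  obtain ⟨φ, hφ⟩ := exists_euclid_sum (Ω := Fin M × ι × Bool) (fun c => p c.2.1)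
    (fun c => hp _) (fun c => S.F c.1 c.2.1 c.2.2)
  have hEn : ∀ x y, dist (φ x) (φ y) ^ 2 = S.En M x y := by
    intro x y
    rw [hφ, Fintype.sum_prod_type, Setup2.En, ← Fin.sum_univ_eq_sum_range
      (fun a => ∑ ω, S.p ω * ∑ s, ‖S.F a ω s x - S.F a ω s y‖ ^ 2)]
    refine sum_congr rfl fun a _ => ?_
    rw [Fintype.sum_prod_type]
    refine sum_congr rfl fun ω _ => ?_
    rw [mul_sum]
  have hW : (1 : ℝ) ≤ W := by exact_mod_cast hW1
  have hm : (m : ℝ) = 384 * ((W : ℝ) + 1) ^ 2 := by simp [m]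
  refine ⟨φ, W / (16 * (2 * ((Λ : ℝ) + 2)) ^ 2), by positivity, fun x y => ⟨?_, ?_⟩⟩
  · by_cases hxy : x = y
    · simp [hxy]
    rw [hEn]
    refine S.le_En le_rfl ?_ (g := g) ?_ hWg M x y ?_ ?_
    · change 384 * ((W : ℝ) + 1) ≤ m
      rw [hm]
      nlinarith
    · change 96 * (1024 * D) * ((Λ : ℝ) + 2) * (2 * ((Λ : ℝ) + 2)) ≤ _
      linarith
    · change η / 2 ^ W * 2 ^ W ≤ dist x y
      have := hc0 (x, y)
      simp only [if_neg hxy] at this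
      rw [div_mul_cancel₀ _ (by positivity)]
      exact this
    · change dist x y ≤ η / 2 ^ W * 2 ^ M
      rw [div_lt_iff₀ hδ] at hM
      have := hc1 (x, y)
      linarith
  · rw [hEn]
    refine (S.En_le2 M x y).trans (mul_le_mul_of_nonneg_right ?_ (sq_nonneg _))
    have := ratio_le2 (L := L) (k := Λ + 2) (J := ((2 * W + 9 : ℕ) : ℝ)) hD (by linarith)
      (Nat.cast_nonneg _) hW (by push_cast; ring) hm
    refine le_trans (le_of_eq ?_) this
    simp only [S, Setup.Q, Setup.α, Nat.cast_add W]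

lemma choice {D : ℝ} (hD : 1 ≤ D) {n : ℕ} (hn : 3 ≤ n) : ∃ Λ L W g : ℕ,
    n < 2 ^ 2 ^ Λ ∧ n ≤ 2 ^ L ∧ 1 ≤ W ∧ 2 * g ≤ W ∧ 196608 * D * (Λ + 2) ^ 2 ≤ 2 ^ g ∧
      0 < Real.log (Real.log n) ∧
      10 ^ 32 * D ^ 6 * (Λ + 2) ^ 4 * ((L + 2) / W + W ^ 4) ≤
        (10 ^ 26 * D ^ 4 * Real.log n ^ (2 / 5 : ℝ) * Real.log (Real.log n) ^ 2) ^ 2 := by
  have hn0 : n ≠ 0 := by omega
  set l := Nat.log 2 n with hl
  have a2 : n < 2 ^ (l + 1) := Nat.lt_pow_succ_log_self (by norm_num) n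
  have a3 : 2 ^ l ≤ n := Nat.pow_log_le_self 2 hn0
  set v := Nat.log 2 (l + 1) with hv
  have b2 : l + 1 < 2 ^ (v + 1) := Nat.lt_pow_succ_log_self (by norm_num) _
  have b3 : 2 ^ v ≤ l + 1 := Nat.pow_log_le_self 2 (by omega)
  have d3 := Real.log_two_gt_d9
  have d4 := Real.log_two_lt_d9
  set x := Real.log n with hx
  have x1 : 1.026 ≤ x := by
    have e1 : Real.log 3 ≤ x := Real.log_le_log (by norm_num) (by exact_mod_cast hn)
    have e2 : Real.log 3 = Real.log 2 + Real.log (3 / 2) := by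
      rw [← Real.log_mul (by norm_num) (by norm_num)]; norm_num
    have e3 := Real.one_sub_inv_le_log_of_pos (show (0 : ℝ) < 3 / 2 by norm_num)
    norm_num at e3
    linarith
  have x0 : 0 < x := by linarith
  set y := Real.log x with hy
  have y1 : 0.025 ≤ y := by
    have e1 : Real.log 1.026 ≤ y := Real.log_le_log (by norm_num) x1
    have e3 := Real.one_sub_inv_le_log_of_pos (show (0 : ℝ) < 1.026 by norm_num)
    norm_num at e3 e1 ⊢
    linarith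
  have c1 : (l : ℝ) ≤ 2 * x := by
    have d1 : ((2 : ℝ) ^ l) ≤ n := by exact_mod_cast a3
    have d2 := Real.log_le_log (by positivity) d1
    have d5 : (0 : ℝ) ≤ l := Nat.cast_nonneg _
    rw [Real.log_pow] at d2
    nlinarith
  have c2 : (v : ℝ) ≤ 3 + 2 * y := by
    have d1 : ((2 : ℝ) ^ v) ≤ l + 1 := by exact_mod_cast b3
    have d2 := Real.log_le_log (by positivity) (d1.trans (show (l : ℝ) + 1 ≤ 2 ^ 2 * x by linarith))
    have d5 : (0 : ℝ) ≤ v := Nat.cast_nonneg _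
    rw [Real.log_pow, Real.log_mul (by norm_num) x0.ne', Real.log_pow] at d2
    push_cast at d2
    nlinarith
  set r := x ^ (1 / 5 : ℝ) with hr
  have r1 : 1 ≤ r := Real.one_le_rpow (by linarith) (by norm_num)
  have r5 : r ^ 5 = x := by
    rw [hr, ← Real.rpow_natCast, ← Real.rpow_mul x0.le]; norm_num
  have r2 : x ^ (2 / 5 : ℝ) = r ^ 2 := by
    rw [hr, ← Real.rpow_natCast, ← Real.rpow_mul x0.le]; norm_num
  have ry : y ≤ 5 * r := by
    have e1 : y = 5 * Real.log r := by rw [hy, ← r5, Real.log_pow]; norm_num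
    linarith [Real.log_le_sub_one_of_pos (show 0 < r by linarith)]
  set z := √D with hz
  have z1 : 1 ≤ z := Real.one_le_sqrt.2 hD
  have z2 : z ^ 2 = D := Real.sq_sqrt (by linarith)
  set s := ⌈z⌉₊ with hs
  have s1 : z ≤ s := Nat.le_ceil z
  have s2 : (s : ℝ) ≤ 2 * z := by linarith [Nat.ceil_lt_add_one (show 0 ≤ z by linarith)]
  set w := ⌈r⌉₊ with hw
  have w1 : r ≤ w := Nat.le_ceil r
  have w2 : (w : ℝ) ≤ 2 * r := by linarith [Nat.ceil_lt_add_one (show 0 ≤ r by linarith)]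
  have w3 : 1 ≤ w := by exact_mod_cast r1.trans w1
  have e : ((v + 1 : ℕ) : ℝ) + 2 = ((v + 3 : ℕ) : ℝ) := by push_cast; ring
  refine ⟨v + 1, l + 1, w + 2 * (18 + s * 2 + (v + 3) * 2), 18 + s * 2 + (v + 3) * 2,
    a2.trans (Nat.pow_lt_pow_right (by norm_num) b2), a2.le, by omega, by omega, ?_,
    by linarith, ?_⟩
  · have f1 : (s : ℝ) ≤ 2 ^ s := by exact_mod_cast Nat.lt_two_pow_self.le
    have f2 : ((v + 3 : ℕ) : ℝ) ≤ 2 ^ (v + 3) := by exact_mod_cast Nat.lt_two_pow_self.le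
    have f3 : D ≤ (2 ^ s) ^ 2 := z2 ▸ pow_le_pow_left₀ (by linarith) (s1.trans f1) 2
    rw [e, pow_add, pow_add, pow_mul, pow_mul]
    exact mul_le_mul (mul_le_mul (by norm_num) f3 (by linarith) (by norm_num))
      (pow_le_pow_left₀ (Nat.cast_nonneg _) f2 2) (by positivity) (by positivity)
  rw [e, r2]
  set k : ℝ := ((v + 3 : ℕ) : ℝ) with hk
  set W : ℝ := ((w + 2 * (18 + s * 2 + (v + 3) * 2) : ℕ) : ℝ) with hW
  have k0 : 0 ≤ k := Nat.cast_nonneg _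
  have k1 : k ≤ 6 + 2 * y := by rw [hk]; push_cast; linarith
  have hWe : W = w + 2 * (18 + s * 2 + k * 2) := by rw [hW, hk]; push_cast; ring
  have zr : r ≤ z * r ∧ z ≤ z * r := ⟨by nlinarith, by nlinarith⟩
  have W1 : r ≤ W := by
    have : (0 : ℝ) ≤ s := Nat.cast_nonneg _
    linarith
  have W2 : W ≤ 110 * (z * r) := by linarith [zr.1, zr.2]
  have g1 : (((l + 1 : ℕ) : ℝ) + 2) / W ≤ 5 * r ^ 4 := by
    rw [div_le_iff₀ (by linarith)]
    push_cast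
    have := mul_le_mul_of_nonneg_left W1 (show 0 ≤ 5 * r ^ 4 by positivity)
    nlinarith
  have g2 : W ^ 4 ≤ 110 ^ 4 * (D ^ 2 * r ^ 4) := by
    refine (pow_le_pow_left₀ (by linarith) W2 4).trans (le_of_eq ?_)
    rw [← z2]; ring
  have g3 : (((l + 1 : ℕ) : ℝ) + 2) / W + W ^ 4 ≤ 2 * 10 ^ 8 * (D ^ 2 * r ^ 4) := by
    have : r ^ 4 ≤ D ^ 2 * r ^ 4 := le_mul_of_one_le_left (by positivity) (one_le_pow₀ hD)
    have : 0 ≤ D ^ 2 * r ^ 4 := by positivity
    linarith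
  have g4 : k ^ 4 ≤ (242 * y) ^ 4 := pow_le_pow_left₀ k0 (by linarith) 4
  refine (mul_le_mul (mul_le_mul_of_nonneg_left g4 (by positivity)) g3 (by
    have : 0 < W := by linarith
    positivity) (by positivity)).trans ?_
  have : 0 ≤ D ^ 8 * r ^ 4 * y ^ 4 := by positivity
  nlinarith

theorem power {D : ℝ} (hD : 1 ≤ D) (X : Type) [MetricSpace X] [Fintype X]
    (hn : 3 ≤ Fintype.card X) (k : ℕ) (p : Fin k → ℝ) (t : Fin k → X → X → ℝ) (hp : ∀ i, 0 ≤ p i)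
    (hp1 : ∑ i, p i = 1) (ht : ∀ i, IsTree (t i)) (hdom : ∀ i x y, dist x y ≤ t i x y)
    (hexp : ∀ x y, ∑ i, p i * t i x y ≤ D * dist x y) :
    ∃ (f : X → lp (fun _ : ℕ => ℝ) 2) (s : ℝ), 0 < s ∧
      ∀ x y, s * dist x y ≤ dist (f x) (f y) ∧ dist (f x) (f y) ≤ s * (10 ^ 26 * D ^ 4 *
        Real.log (Fintype.card X) ^ (2 / 5 : ℝ) * Real.log (Real.log (Fintype.card X)) ^ 2) *
          dist x y := by
  obtain ⟨Λ, L, W, g, h1, h2, h3, h4, h5, -, h7⟩ := choice hD hn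
  obtain ⟨f, c, hc, hf⟩ :=
    embed_bound2 hD p t hp hp1 ht hdom hexp Λ L W g (by omega) h1 h2 h3 h4 h5
  obtain ⟨j, hj⟩ := exists_lp (n := Fintype.card X)
  refine ⟨fun x => j (f x), √c, Real.sqrt_pos.2 hc, fun x y => ⟨?_, ?_⟩⟩ <;> rw [hj]
  · refine (abs_le_of_sq_le_sq' ?_ dist_nonneg).2
    rw [mul_pow, Real.sq_sqrt hc.le]
    exact (hf x y).1
  · have := Real.log_natCast_nonneg (Fintype.card X)
    refine (abs_le_of_sq_le_sq' ?_ (by positivity)).2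
    rw [mul_pow, mul_pow, Real.sq_sqrt hc.le]
    exact (hf x y).2.trans (mul_le_mul_of_nonneg_right (mul_le_mul_of_nonneg_left h7 hc.le)
      (sq_nonneg _))

end Pool.Agent.Lib.MP_2c27be_co
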