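import Pool.Agent.Results.MP_2c27be_co.PowerSaving

/-!
The bound with a power saving implies the earlier bound `C D ^ 3 sqrt (log n / log log n)`.
-/

namespace Pool.Agent.Lib.MP_2c27be_co

open Filter Pool.Agent.Results.MP_2c27be_co.PowerSaving

theorem earlier_bound : ∃ C : ℝ, ∀ D : ℝ, 1 ≤ D → ∃ N : ℕ,
    ∀ (X : Type) [MetricSpace X] [Fintype X], N ≤ Fintype.card X → TreeStochastic D X →
      c2 X ≤ ENNReal.ofReal (C * D ^ 3 *
        √(Real.log (Fintype.card X) / Real.log (Real.log (Fintype.card X)))) := by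
  obtain ⟨C, hC⟩ := result
  refine ⟨|C|, fun D hD => ?_⟩
  have hD0 : 0 < D := by linarith
  have h1 := (isLittleO_log_rpow_rpow_atTop 5 (show (0 : ℝ) < 1 / 5 by norm_num)).bound
    (show 0 < (D ^ 2)⁻¹ by positivity)
  obtain ⟨N, hN⟩ := eventually_atTop.1 ((Real.tendsto_log_atTop.comp
    (tendsto_natCast_atTop_atTop (R := ℝ))).eventually (h1.and (eventually_gt_atTop 1)))
  refine ⟨max N 3, fun X _ _ hn hX => (hC D hD X (le_of_max_le_right hn) hX).trans
    (ENNReal.ofReal_le_ofReal ?_)⟩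
  obtain ⟨h2, h3⟩ := hN _ (le_of_max_le_left hn)
  simp only [Function.comp] at h2 h3
  generalize Real.log (Fintype.card X) = x at h2 h3
  have hy := Real.log_pos h3
  have x0 : 0 < x := by linarith
  set r := x ^ (1 / 5 : ℝ) with hr
  have r0 : 0 < r := by positivity
  have r5 : r ^ 5 = x := by
    rw [hr, ← Real.rpow_natCast, ← Real.rpow_mul x0.le]; norm_num
  have r2 : x ^ (2 / 5 : ℝ) = r ^ 2 := by
    rw [hr, ← Real.rpow_natCast, ← Real.rpow_mul x0.le]; norm_num
  rw [Real.norm_of_nonneg (by positivity), Real.norm_of_nonneg r0.le, le_inv_mul_iff₀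
    (by positivity), show (5 : ℝ) = (5 : ℕ) by norm_num, Real.rpow_natCast] at h2
  have h4 : D * r ^ 2 * Real.log x ^ 2 ≤ √(x / Real.log x) := by
    refine Real.le_sqrt_of_sq_le ?_
    rw [le_div_iff₀ hy]
    nlinarith [mul_le_mul_of_nonneg_left h2 (show 0 ≤ r ^ 4 by positivity)]
  rw [r2]
  calc C * D ^ 4 * r ^ 2 * Real.log x ^ 2 = C * (D ^ 3 * (D * r ^ 2 * Real.log x ^ 2)) := by ring
    _ ≤ |C| * (D ^ 3 * √(x / Real.log x)) :=
        mul_le_mul (le_abs_self C) (by gcongr) (by positivity) (abs_nonneg C)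
    _ = _ := by ring

end Pool.Agent.Lib.MP_2c27be_co
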