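import Pool.Agent.Lib.MP_2c27be_co.Quant

/-!
A sharper upper bound for the mean square increments of the block maps.
-/

namespace Pool.Agent.Lib.MP_2c27be_co

open Finset

namespace Setup2

variable {X ι E : Type} [Fintype X] [Fintype ι] [NormedAddCommGroup E] [NormedSpace ℝ E]
  (S : Setup2 X ι E)

open Classical in
/-- The small scales. -/
noncomputable def sm (j : ℕ) (x y : X) : ℝ :=
  if S.δ * 2 ^ j ≤ 64 * (S.α * S.d x y) then S.δ * 2 ^ j else 0

omit [Fintype X] [NormedSpace ℝ E] in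
lemma sm_nonneg (j : ℕ) (x y : X) : 0 ≤ S.sm j x y := by
  have := S.δ_pos
  unfold sm
  split_ifs <;> positivity

omit [Fintype X] [NormedSpace ℝ E] in
lemma sum_sm (M : ℕ) (x y : X) : ∑ j ∈ range M, S.sm j x y ≤ 2 * (64 * (S.α * S.d x y)) := by
  have hl : 0 ≤ 64 * (S.α * S.d x y) := by
    have := S.α_nonneg; have := S.d_nonneg x y; positivity
  convert sum_geo_le S.δ_pos hl M using 2
  simp only [sm]

omit [Fintype X] [NormedSpace ℝ E] in
lemma sum_sm_sq (M : ℕ) (x y : X) :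
    ∑ a ∈ range M, (∑ j ∈ Ico a (a + S.W), S.sm j x y) ^ 2 ≤
      S.W * (128 * (S.α * S.d x y)) ^ 2 := by
  have hl : 0 ≤ 128 * (S.α * S.d x y) := by
    have := S.α_nonneg; have := S.d_nonneg x y; positivity
  have h1 : ∀ a ∈ range M, (∑ j ∈ Ico a (a + S.W), S.sm j x y) ^ 2 ≤
      128 * (S.α * S.d x y) * ∑ j ∈ Ico a (a + S.W), S.sm j x y := fun a _ => by
    rw [sq]
    refine mul_le_mul_of_nonneg_right ?_ (sum_nonneg fun j _ => S.sm_nonneg j x y)
    refine (sum_le_sum_of_subset_of_nonneg (t := range (a + S.W))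
      (fun j hj => mem_range.2 (mem_Ico.1 hj).2) fun j _ _ => S.sm_nonneg j x y).trans ?_
    linarith [S.sum_sm (a + S.W) x y]
  refine (sum_le_sum h1).trans ?_
  rw [← mul_sum]
  have h2 := mul_le_mul_of_nonneg_left
    (sum_block_le (fun j => S.sm_nonneg j x y) (fun M => S.sum_sm M x y) M S.W) hl
  refine h2.trans (le_of_eq (by ring))

open Classical in
lemma F_sq_exp2 (a : ℕ) (s : Bool) (x y : X) :
    ∑ ω, S.p ω * ‖S.F a ω s x - S.F a ω s y‖ ^ 2 ≤ 4 * (40000 * (S.κ * S.K)) ^ 2 *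
      (S.aa a x y ^ 2 + S.aa (a + S.W) x y ^ 2 +
        9 * (∑ j ∈ Ico a (a + S.W), S.sm j x y) ^ 2 +
        S.W * ∑ j ∈ Ico a (a + S.W), 96 / S.m * (S.aa j x y + S.aa (j + 1) x y) ^ 2) := by
  set b := a + S.W with hb
  let bad : ι → ℕ → Prop := fun ω j => 1 / 16 < S.β j b ω x ∨ 1 / 16 < S.β (j + 1) b ω x
  set U := ∑ j ∈ Ico a b, S.sm j x y with hU
  have h1 : ∀ ω, ‖S.F a ω s x - S.F a ω s y‖ ^ 2 ≤ 4 * (40000 * (S.κ * S.K)) ^ 2 *
      (S.aa a x y ^ 2 + S.aa b x y ^ 2 + 9 * U ^ 2 + S.W * ∑ j ∈ Ico a b,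
        (if bad ω j then 1 else 0) * (S.aa j x y + S.aa (j + 1) x y) ^ 2) := by
    intro ω
    set T := ∑ j ∈ Ico a b, if bad ω j then S.aa j x y + S.aa (j + 1) x y else 0 with hT
    have a0 : (∑ j ∈ Ico a b, if S.firm j b ω x y ∧ S.firm (j + 1) b ω x y then 0
        else S.aa j x y + S.aa (j + 1) x y) ≤ 3 * U + T := by
      rw [hU, hT, mul_sum, ← sum_add_distrib]
      refine sum_le_sum fun j _ => ?_
      have n1 := S.aa_nonneg j x y
      have n2 := S.aa_nonneg (j + 1) x y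
      have n3 := S.sm_nonneg j x y
      by_cases hbad : bad ω j
      · rw [if_pos hbad]
        split_ifs <;> linarith
      rw [if_neg hbad]
      split_ifs with h
      · linarith
      have t1 := S.τ_le_α j x y
      have t2 := S.τ_le_α (j + 1) x y
      have t3 := S.Δ_pos j
      have b1 : S.aa j x y ≤ S.Δ j := mul_le_of_le_one_right (S.Δ_pos _).le (S.τ_le_one _ _ _)
      have b2 : S.aa (j + 1) x y ≤ S.Δ (j + 1) :=
        mul_le_of_le_one_right (S.Δ_pos _).le (S.τ_le_one _ _ _)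
      rw [S.Δ_succ] at t2 b2
      have c : S.Δ j ≤ 64 * (S.α * S.d x y) := by
        by_contra c3
        push Not at c3
        refine h ⟨⟨not_lt.1 fun g => hbad (Or.inl g), ?_⟩, ⟨not_lt.1 fun g => hbad (Or.inr g), ?_⟩⟩
        · by_contra c
          nlinarith [mul_lt_mul_of_pos_left (not_le.1 c) t3]
        · by_contra c
          nlinarith [mul_lt_mul_of_pos_left (not_le.1 c) t3]
      have e : S.sm j x y = S.Δ j := if_pos c
      linarith
    have a2 : T ^ 2 ≤ S.W * ∑ j ∈ Ico a b,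
        (if bad ω j then 1 else 0) * (S.aa j x y + S.aa (j + 1) x y) ^ 2 := by
      refine sq_sum_le_card_mul_sum_sq.trans (le_of_eq ?_)
      rw [Nat.card_Ico, show b - a = S.W by omega]
      congr 1
      exact sum_congr rfl fun j _ => by split_ifs <;> simp
    have a1 : ‖S.F a ω s x - S.F a ω s y‖ ≤
        40000 * (S.κ * S.K) * (S.aa a x y + S.aa b x y + (3 * U + T)) :=
      (S.F_lip a ω s x y).trans (mul_le_mul_of_nonneg_left (add_le_add le_rfl a0)
        (by have := mul_pos S.κ_pos S.K_pos; positivity))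
    have a3 : (S.aa a x y + S.aa b x y + (3 * U + T)) ^ 2 ≤
        4 * (S.aa a x y ^ 2 + S.aa b x y ^ 2 + 9 * U ^ 2 + T ^ 2) := by
      nlinarith [sq_nonneg (S.aa a x y - S.aa b x y), sq_nonneg (S.aa a x y - T),
        sq_nonneg (S.aa b x y - T), sq_nonneg (S.aa a x y - 3 * U), sq_nonneg (S.aa b x y - 3 * U),
        sq_nonneg (3 * U - T)]
    refine (pow_le_pow_left₀ (norm_nonneg _) a1 2).trans ?_
    rw [mul_pow, mul_comm 4, mul_assoc]
    exact mul_le_mul_of_nonneg_left (by linarith) (sq_nonneg _)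
  refine (sum_le_sum fun ω _ => mul_le_mul_of_nonneg_left (h1 ω) (S.p_nonneg ω)).trans ?_
  simp only [mul_left_comm (S.p _)]
  rw [← mul_sum]
  apply mul_le_mul_of_nonneg_left _ (by positivity)
  simp only [mul_add, sum_add_distrib, ← sum_mul, S.p_sum, one_mul]
  refine add_le_add le_rfl ?_
  simp only [mul_left_comm (S.p _)]
  rw [← mul_sum]
  refine mul_le_mul_of_nonneg_left ?_ (Nat.cast_nonneg _)
  simp only [mul_sum]
  rw [sum_comm]
  refine sum_le_sum fun j _ => ?_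
  simp only [← mul_assoc, ← sum_mul]
  apply mul_le_mul_of_nonneg_right _ (sq_nonneg _)
  have c1 := S.β_prob j b x
  have c2 := S.β_prob (j + 1) b x
  have c3 : ∑ ω, S.p ω * (if bad ω j then (1 : ℝ) else 0) ≤
      ∑ ω, (S.p ω * (if 1 / 16 < S.β j b ω x then 1 else 0) +
        S.p ω * (if 1 / 16 < S.β (j + 1) b ω x then 1 else 0)) :=
    sum_le_sum fun ω _ => by
      rw [← mul_add]
      refine mul_le_mul_of_nonneg_left ?_ (S.p_nonneg ω)
      by_cases g : bad ω j
      · rw [if_pos g]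
        rcases g with g | g <;> rw [if_pos g] <;> split_ifs <;> norm_num
      · rw [if_neg g]
        split_ifs <;> norm_num
  rw [sum_add_distrib] at c3
  have : 96 / S.m = 48 / S.m + 48 / S.m := by ring
  linarith

lemma En_le2 (M : ℕ) (x y : X) :
    S.En M x y ≤ 8 * (40000 * (S.κ * S.K)) ^ 2 *
      (2 * S.Q + 147456 * S.W * S.α ^ 2 + S.W ^ 2 * (384 * S.Q / S.m)) * S.d x y ^ 2 := by
  have hm := S.m_pos
  have h1 : ∀ a ∈ range M, ∑ ω, S.p ω * ∑ s, ‖S.F a ω s x - S.F a ω s y‖ ^ 2 ≤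
      8 * (40000 * (S.κ * S.K)) ^ 2 * (S.aa a x y ^ 2 + S.aa (a + S.W) x y ^ 2 +
        9 * (∑ j ∈ Ico a (a + S.W), S.sm j x y) ^ 2 +
        S.W * ∑ j ∈ Ico a (a + S.W), 96 / S.m * (S.aa j x y + S.aa (j + 1) x y) ^ 2) := by
    intro a _
    simp only [Fintype.sum_bool, mul_add (S.p _), sum_add_distrib]
    linarith [S.F_sq_exp2 a true x y, S.F_sq_exp2 a false x y]
  refine (sum_le_sum h1).trans ?_
  rw [← mul_sum, mul_assoc (8 * _)]
  apply mul_le_mul_of_nonneg_left _ (by positivity)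
  rw [sum_add_distrib, sum_add_distrib, sum_add_distrib, ← mul_sum, ← mul_sum]
  have c1 : ∀ M k, ∑ j ∈ range M, S.aa (j + k) x y ^ 2 ≤ S.Q * S.d x y ^ 2 := fun M k =>
    sum_shift_le (h := fun j => S.aa j x y ^ 2) (fun _ => sq_nonneg _)
      (fun M => S.sum_τ_sq M x y) M k
  have c2 : ∀ M, ∑ j ∈ range M, 96 / S.m * (S.aa j x y + S.aa (j + 1) x y) ^ 2 ≤
      384 * S.Q / S.m * S.d x y ^ 2 := fun M => by
    rw [← mul_sum]
    have d1 : ∑ j ∈ range M, (S.aa j x y + S.aa (j + 1) x y) ^ 2 ≤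
        ∑ j ∈ range M, (2 * S.aa (j + 0) x y ^ 2 + 2 * S.aa (j + 1) x y ^ 2) :=
      sum_le_sum fun j _ => by
        rw [add_zero]
        nlinarith [sq_nonneg (S.aa j x y - S.aa (j + 1) x y)]
    rw [sum_add_distrib, ← mul_sum, ← mul_sum] at d1
    have d2 : ∑ j ∈ range M, (S.aa j x y + S.aa (j + 1) x y) ^ 2 ≤ 4 * (S.Q * S.d x y ^ 2) := by
      linarith [c1 M 0, c1 M 1]
    exact (mul_le_mul_of_nonneg_left d2 (by positivity)).trans (le_of_eq (by ring))
  have c3 := mul_le_mul_of_nonneg_left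
    (sum_block_le (fun j => by positivity) c2 M S.W) (Nat.cast_nonneg (α := ℝ) S.W)
  have c4 := S.sum_sm_sq M x y
  have c5 := c1 M 0
  have c6 := c1 M S.W
  simp only [add_zero] at c5
  linarith

end Setup2

end Pool.Agent.Lib.MP_2c27be_co
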